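import Pool.Agent.W795.TQ.PStm

/-!
The means of a periodic solution are constant; the change of the time scale.
-/

open MeasureTheory Set H459R3.NS
open scoped ContDiff

namespace Pool.Agent.W185.TQ

theorem mean_hasDerivAt {ν T : ℝ} {u : ℝ → V → V} {p : ℝ → V → ℝ} (h : IsSol ν T u p) {t : ℝ}
    (ht : t ∈ Ioo 0 T) (i : Fin 3) : HasDerivAt (fun s => ∫ x in cube, u s x i) 0 t := by
  have hI : t ∈ Ico 0 T := ⟨ht.1.le, ht.2⟩
  set v : Fin 3 → V → ℝ := fun i y => u t y i with hv
  have hsp : ∀ i, SP (v i) := fun i => h.sp hI i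
  have hdiv : ∀ x, ∑ i, pd i (v i) x = 0 := h.divfree t hI
  have hF : ContDiffOn ℝ 1 (fun z : ℝ × V => u z.1 z.2 i) (Ioo 0 T ×ˢ univ) :=
    mono_Ioo (f := fun s y => u s y i) (h.smooth_c i) (by norm_cast)
  have key := hasDerivAt_int (F := fun s x => u s x i) hF ht
  refine key.congr_deriv ?_
  have e0 : (∫ x in cube, deriv (fun s => u s x i) t)
      = ∫ x in cube, (ν * lap (v i) x - conv v i x - pd i (p t) x) := by
    congr 1
    funext x
    exact h.dt_eq ht i x
  rw [e0]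
  have i1 : IntegrableOn (fun x => ν * lap (v i) x) cube := (hsp i).lap.int.const_mul ν
  have i2 : IntegrableOn (fun x => conv v i x) cube := (sp_conv hsp i).int
  have i3 : IntegrableOn (fun x => pd i (p t) x) cube := ((h.sp_p hI).pd i).int
  have i12 : IntegrableOn (fun x => ν * lap (v i) x - conv v i x) cube := i1.sub i2
  rw [integral_sub i12 i3, integral_sub i1 i2, integral_const_mul]
  have a1 : ∫ x in cube, lap (v i) x = 0 := by
    unfold lap
    rw [integral_finsetSum _ fun j _ => (((hsp i).pd j).pd j).int]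
    refine Finset.sum_eq_zero fun j _ => ?_
    exact integral_pd (((hsp i).pd j).smooth.of_le (by norm_cast)) ((hsp i).pd j).per j
  have a2 : ∫ x in cube, conv v i x = 0 := by
    unfold conv
    rw [integral_finsetSum _ fun j _ => ((hsp j).mul ((hsp i).pd j)).int]
    have : ∀ j, ∫ x in cube, v j x * pd j (v i) x = -∫ x in cube, pd j (v j) x * v i x := by
      intro j
      rw [ibp (hsp j) (hsp i) j]; ring
    simp_rw [this]
    rw [Finset.sum_neg_distrib, ← integral_finsetSum _ fun j _ => (((hsp j).pd j).mul (hsp i)).int]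
    simp_rw [← Finset.sum_mul, hdiv]
    simp
  have a3 : ∫ x in cube, pd i (p t) x = 0 :=
    integral_pd ((h.sp_p hI).smooth.of_le (by norm_cast)) (h.sp_p hI).per i
  rw [a1, a2, a3]
  ring

theorem proof_mean : W795.TQ.S_mean := by
  intro ν T u p h t ht i
  rcases eq_or_lt_of_le ht.1 with h0 | h0
  · rw [← h0]
  · have hc : ContinuousOn (fun s => ∫ x in cube, u s x i) (Icc 0 t) :=
      (continuousOn_int (F := fun s x => u s x i) (h.smooth_c i).continuousOn).mono
        fun s hs => ⟨hs.1, hs.2.trans_lt ht.2⟩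
    obtain ⟨c, _, hc2⟩ := exists_hasDerivAt_eq_slope (fun s => ∫ x in cube, u s x i)
      (fun _ => 0) h0 hc (fun s hs => mean_hasDerivAt h ⟨hs.1, hs.2.trans ht.2⟩ i)
    have h1 : (t - 0 : ℝ) ≠ 0 := by linarith
    rw [eq_comm, div_eq_zero_iff] at hc2
    rcases hc2 with h2 | h2
    · linarith
    · exact absurd h2 h1

theorem pd_smul' (c : ℝ) {f : V → ℝ} (hf : Differentiable ℝ f) (j : Fin 3) :
    pd j (fun y => c * f y) = fun y => c * pd j f y := by
  funext x
  unfold pd
  rw [fderiv_const_mul (hf x) c]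
  rfl

theorem proof_scale : W795.TQ.S_scale := by
  intro ν T u p hν h
  have hmap : MapsTo (fun z : ℝ × V => ((z.1 / ν, z.2) : ℝ × V)) (Ico 0 (ν * T) ×ˢ univ)
      (Ico 0 T ×ˢ univ) := by
    intro z hz
    refine ⟨⟨div_nonneg hz.1.1 hν.le, ?_⟩, mem_univ _⟩
    rw [div_lt_iff₀ hν, mul_comm]
    exact hz.1.2
  have hg : ContDiff ℝ ∞ (fun z : ℝ × V => ((z.1 / ν, z.2) : ℝ × V)) := by fun_prop
  have hIco : ∀ t ∈ Ico 0 (ν * T), t / ν ∈ Ico 0 T := fun t ht =>
    (hmap (x := (t, 0)) ⟨ht, mem_univ _⟩).1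
  have hIoo : ∀ t ∈ Ioo 0 (ν * T), t / ν ∈ Ioo 0 T := by
    intro t ht
    refine ⟨div_pos ht.1 hν, ?_⟩
    rw [div_lt_iff₀ hν, mul_comm]
    exact ht.2
  have hd : ∀ t ∈ Ico 0 T, ∀ i, Differentiable ℝ (fun y => u t y i) := fun t ht i x =>
    (h.sp ht i).diff x
  refine ⟨?_, ?_, ?_, ?_, ?_, ?_⟩
  · have := (h.smooth_u.comp hg.contDiffOn hmap).const_smul ν⁻¹
    exact this
  · have := (h.smooth_p.comp hg.contDiffOn hmap)
    exact contDiffOn_const.mul this
  · intro t ht i x
    have := h.per_u _ (hIco t ht) i x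
    simp only [this]
  · intro t ht i x
    have := h.per_p _ (hIco t ht) i x
    simp only [this]
  · intro t ht x
    have e : ∀ i, pd i (fun y => (ν⁻¹ • u (t / ν) y) i) x
        = ν⁻¹ * pd i (fun y => u (t / ν) y i) x := by
      intro i
      have := congrFun (pd_smul' ν⁻¹ (hd _ (hIco t ht) i) i) x
      exact this
    simp only [e]
    rw [← Finset.mul_sum, h.divfree _ (hIco t ht), mul_zero]
  · intro t ht x i
    have ht0 := hIoo t ht
    have ht1 : t / ν ∈ Ico 0 T := ⟨ht0.1.le, ht0.2⟩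
    have hm := h.momentum _ ht0 x i
    have e1 : deriv (fun s => (ν⁻¹ • u (s / ν) x) i) t
        = ν⁻¹ * (ν⁻¹ * deriv (fun s => u s x i) (t / ν)) := by
      have hdf : HasDerivAt (fun s => u s x i) (deriv (fun s => u s x i) (t / ν)) (t / ν) := by
        have := hasDerivAt_slice (F := fun s y => u s y i)
          (mono_Ioo (f := fun s y => u s y i) (h.smooth_c i) (by norm_cast)) ht0 x
        exact this.differentiableAt.hasDerivAt
      have h2 : HasDerivAt (fun s : ℝ => s / ν) (1 / ν) t := (hasDerivAt_id t).div_const ν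
      have h3 := (hdf.comp t h2).const_mul ν⁻¹
      have h4 : HasDerivAt (fun s => (ν⁻¹ • u (s / ν) x) i)
          (ν⁻¹ * (deriv (fun s => u s x i) (t / ν) * (1 / ν))) t := h3
      rw [h4.deriv]
      ring
    have e2 : ∀ j i, pd j (fun y => (ν⁻¹ • u (t / ν) y) i)
        = fun y => ν⁻¹ * pd j (fun y => u (t / ν) y i) y := fun j i =>
      pd_smul' ν⁻¹ (hd _ ht1 i) j
    have e3 : ∀ j i, pd j (pd j (fun y => (ν⁻¹ • u (t / ν) y) i)) x
        = ν⁻¹ * pd j (pd j (fun y => u (t / ν) y i)) x := by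
      intro j i
      rw [e2]
      exact congrFun (pd_smul' ν⁻¹ (fun x => ((h.sp ht1 i).pd j).diff x) j) x
    have e4 : pd i (fun x => ν⁻¹ ^ 2 * p (t / ν) x) x = ν⁻¹ ^ 2 * pd i (p (t / ν)) x :=
      congrFun (pd_smul' (ν⁻¹ ^ 2) (fun x => (h.sp_p ht1).diff x) i) x
    have e5 : ∀ j, (ν⁻¹ • u (t / ν) x) j = ν⁻¹ * u (t / ν) x j := fun j => rfl
    simp only [e3]
    rw [e1, e4]
    simp only [e2, e5]
    have s1 : ∑ j, ν⁻¹ * u (t / ν) x j * (ν⁻¹ * pd j (fun y => u (t / ν) y i) x)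
        = ν⁻¹ ^ 2 * ∑ j, u (t / ν) x j * pd j (fun y => u (t / ν) y i) x := by
      rw [Finset.mul_sum]
      exact Finset.sum_congr rfl fun j _ => by ring
    rw [s1, ← Finset.mul_sum]
    have hne : ν ≠ 0 := hν.ne'
    have s2 : deriv (fun s => u s x i) (t / ν)
        = ν * ∑ j, pd j (pd j (fun y => u (t / ν) y i)) x - pd i (p (t / ν)) x
          - ∑ j, u (t / ν) x j * pd j (fun y => u (t / ν) y i) x := by linarith
    rw [s2]
    field_simp
    ring

end Pool.Agent.W185.TQ
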